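import Pool.Agent.H608R5.KL.Stm

/-! Job 5739 (KL-K5): coercivity of the Hessian form. -/

set_option autoImplicit false

namespace Pool.Agent.TH554.KL

open Pool.Agent.H608R5.KL Finset

theorem kp_pos : 0 < kp := by
  unfold kp; positivity

theorem vr_nonneg {M : ℕ} (A : I M → ℝ) : 0 ≤ vr A :=
  Finset.sum_nonneg fun _ _ => sq_nonneg _

theorem t_K5 (h1 : S_K1) (h2 : S_K2) (h3 : S_K3) (h4 : S_K4) : S_K5 := by
  intro M hM A B
  have hM' : (1 : ℝ) ≤ M := by exact_mod_cast hM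
  have hk := kp_pos
  obtain ⟨m, hm⟩ : ∃ m : ℝ, m = 2 * (M : ℝ) := ⟨_, rfl⟩
  have hm2 : 2 ≤ m := by rw [hm]; linarith
  have e : ∀ a : ZMod 4,
      m * (vr (A a) + vr (B a))
      + 2 * kp * (m ^ 2 * (mu (A a) - mu (B a)) ^ 2 + m * (vr (A a) + vr (B a)))
      + kp * ((m ^ 2 - m) * (mu (A a) - mu (B (a - 1))) ^ 2
          + (m - 2) * (vr (A a) + vr (B (a - 1))))
      - kp * ((m ^ 2 / 2 - m) * (mu (A a) - mu (B (a + 1))) ^ 2
          + (m - 2) * (vr (A a) + vr (B (a + 1)))) ≤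
      (1 / 2 * (∑ x, ∑ y, (A a x - A a y) ^ 2) + 1 / 2 * (∑ x, ∑ y, (B a x - B a y) ^ 2)
        + 2 * kp * (∑ x, ∑ y, (A a x - B a y) ^ 2)
        + kp * (∑ x, ∑ y, (1 - dlt x y) * (A a x - B (a - 1) y) ^ 2)
        - kp * (∑ x, ∑ y, (sam x y - dlt x y) * (A a x - B (a + 1) y) ^ 2)) := by
    intro a
    have a1 := (h1 M hM (A a) (B a)).1
    have a2 := (h1 M hM (B a) (B a)).1
    have a3 := (h1 M hM (A a) (B a)).2.1
    have a4 := mul_le_mul_of_nonneg_left (h1 M hM (A a) (B (a - 1))).2.2 hk.le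
    have a5 := mul_le_mul_of_nonneg_left (h2 M hM (A a) (B (a + 1))) hk.le
    rw [← hm] at a1 a2 a3 a4 a5
    rw [a1, a2, a3]
    linarith
  have hH := Finset.sum_le_sum fun (a : ZMod 4) (_ : a ∈ Finset.univ) => e a
  have hH' : _ ≤ H A B := hH
  have s1 : ∑ a : ZMod 4, vr (B (a - 1)) = ∑ a : ZMod 4, vr (B a) :=
    Equiv.sum_comp (Equiv.subRight (1 : ZMod 4)) (fun a => vr (B a))
  have s2 : ∑ a : ZMod 4, vr (B (a + 1)) = ∑ a : ZMod 4, vr (B a) :=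
    Equiv.sum_comp (Equiv.addRight (1 : ZMod 4)) (fun a => vr (B a))
  have k3 := h3 m hm2 (fun a => mu (A a)) (fun a => mu (B a))
  have k4 := h4 M hM A B
  rw [← hm] at k4
  have hV : 0 ≤ ∑ a : ZMod 4, (vr (A a) + vr (B a)) :=
    Finset.sum_nonneg fun a _ => add_nonneg (vr_nonneg _) (vr_nonneg _)
  -- the sum of the lower bounds
  have key : ∑ a : ZMod 4, (m * (vr (A a) + vr (B a))
      + 2 * kp * (m ^ 2 * (mu (A a) - mu (B a)) ^ 2 + m * (vr (A a) + vr (B a)))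
      + kp * ((m ^ 2 - m) * (mu (A a) - mu (B (a - 1))) ^ 2
          + (m - 2) * (vr (A a) + vr (B (a - 1))))
      - kp * ((m ^ 2 / 2 - m) * (mu (A a) - mu (B (a + 1))) ^ 2
          + (m - 2) * (vr (A a) + vr (B (a + 1)))))
      = (m + 2 * kp * m) * (∑ a : ZMod 4, (vr (A a) + vr (B a)))
        + kp * ∑ a : ZMod 4, (2 * m ^ 2 * (mu (A a) - mu (B a)) ^ 2
            + (m ^ 2 - m) * (mu (A a) - mu (B (a - 1))) ^ 2
            - (m ^ 2 / 2 - m) * (mu (A a) - mu (B (a + 1))) ^ 2)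
        + kp * (m - 2) * (∑ a : ZMod 4, vr (B (a - 1)) - ∑ a : ZMod 4, vr (B (a + 1))) := by
    rw [← Finset.sum_sub_distrib, Finset.mul_sum, Finset.mul_sum, Finset.mul_sum,
      ← Finset.sum_add_distrib, ← Finset.sum_add_distrib]
    refine Finset.sum_congr rfl fun a _ => ?_
    ring
  rw [key, s1, s2, sub_self, mul_zero, add_zero] at hH'
  have b1 := mul_le_mul_of_nonneg_left k3 hk.le
  have b2 := mul_le_mul_of_nonneg_left k4 (show 0 ≤ kp / 64 by positivity)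
  have b3 : kp / 64 * (∑ a : ZMod 4, (vr (A a) + vr (B a)))
      ≤ (m + 2 * kp * m) * ∑ a : ZMod 4, (vr (A a) + vr (B a)) := by
    apply mul_le_mul_of_nonneg_right _ hV
    nlinarith
  refine b2.trans ?_
  refine le_trans ?_ hH'
  have b4 : kp / 64 * (∑ a : ZMod 4, (vr (A a) + vr (B a)) +
      64 * m * (∑ a : ZMod 4, ((mu (A a) - mu (B a)) ^ 2 + (mu (A a) - mu (B (a - 1))) ^ 2)))
      = kp / 64 * (∑ a : ZMod 4, (vr (A a) + vr (B a)))
        + kp * (m * (∑ a : ZMod 4, ((mu (A a) - mu (B a)) ^ 2 + (mu (A a) - mu (B (a - 1))) ^ 2))) := by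
    ring
  rw [b4]
  exact add_le_add b3 b1

end Pool.Agent.TH554.KL
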